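import Pool.Agent.helper54.V3.SpecG

set_option autoImplicit false

open Complex Metric Set Filter Topology MeasureTheory MPS V3

noncomputable section

namespace V3S

theorem GTC (hREG : REG_stmt) (hBA1 : BA1_stmt) (hBA2 : BA2_stmt) (hPCO : V3.PCO_stmt) (hGLB : GLB_stmt)
    (hGHP : GHP_stmt) : GTC_stmt := by
  intro n ra Cf D hS hL K hK hKP ε hε
  obtain ⟨-, -, -, -, -, ⟨c₀, hc₀, hsep⟩, -⟩ := hGLB n ra Cf D hS hL
  obtain ⟨hclosed, -, -⟩ := hPCO (Pin D) c₀ hc₀ hsep
  have hPo : IsOpen (Pin D)ᶜ := hclosed.isOpen_compl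
  obtain ⟨-, -, hloc⟩ := hREG n ra Cf D hS
  refine IsCompact.induction_on (p := fun s => ∀ᶠ m in UF, ∀ j ≤ (D m).k, ∀ x ∈ s,
    ‖(D m).T j x - Bin D x‖ ≤ ε) hK ?_ ?_ ?_ ?_
  · exact Eventually.of_forall fun m j _ x hx => absurd hx (notMem_empty x)
  · intro s t hst ht
    filter_upwards [ht] with m hm j hj x hx
    exact hm j hj x (hst hx)
  · intro s t hs ht
    filter_upwards [hs, ht] with m hm hm' j hj x hx
    rcases hx with hx | hx
    · exact hm j hj x hx
    · exact hm' j hj x hx
  · intro y hy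
    obtain ⟨e₁, he₁, h₁⟩ := hloc y
    obtain ⟨e₂, he₂, h₂⟩ := Metric.isOpen_iff.1 hPo y (hKP hy)
    set r : ℝ := min e₁ e₂ / 2 with hr
    have hm0 : 0 < min e₁ e₂ := lt_min he₁ he₂
    have hr0 : 0 < r := by positivity
    have hr1 : r < e₁ := by have := min_le_left e₁ e₂; linarith
    have hr2 : r < e₂ := by have := min_le_right e₁ e₂; linarith
    have hcb : closedBall y r ⊆ (Pin D)ᶜ := (closedBall_subset_ball hr2).trans h₂
    have hsp : sphere y r ⊆ Reg D := by
      intro x hx
      have hxd : dist x y = r := hx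
      refine h₁ x ?_ ?_
      · rw [mem_ball, hxd]; exact hr1
      · rintro rfl
        rw [dist_self] at hxd
        exact hr0.ne hxd
    refine ⟨ball y r, mem_nhdsWithin_of_mem_nhds (ball_mem_nhds y hr0), ?_⟩
    have hiso := hL.iso (sphere y r) (isCompact_sphere y r) hsp ε hε
    have hnp := hGHP n ra Cf D hS hL (closedBall y r) (isCompact_closedBall y r) hcb
    filter_upwards [hiso, hnp] with m hm1 hm2 j hj x hx
    obtain ⟨-, -, -, -, -, -, hFd, -⟩ := hBA1 n ra Cf (D m) (hS.good m)
    obtain ⟨-, hBd, -⟩ := hBA2 n ra Cf (D m) (hS.good m)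
    have hTd : DifferentiableOn ℂ (fun z => (D m).T j z - Bin D z) (closedBall y r) := by
      intro z hz
      have hF := hFd j
      have hF' : Differentiable ℂ (deriv ((D m).F j)) := by
        have := (hF.contDiff (n := 2)).iterate_deriv' 1 1
        simpa using this.differentiable (by norm_num)
      have h3 : DifferentiableAt ℂ ((D m).B ∘ (D m).F j) z :=
        DifferentiableAt.comp (g := (D m).B) z (hBd ((D m).F j z) (hm2 j hj z hz)) (hF z)
      have h4 : DifferentiableAt ℂ ((D m).T j) z := by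
        show DifferentiableAt ℂ (fun z => deriv ((D m).F j) z ^ 2 * (D m).B ((D m).F j z)) z
        exact ((hF' z).pow 2).mul h3
      have h5 : DifferentiableAt ℂ (Bin D) z := hL.Bdiff.differentiableAt (hPo.mem_nhds (hcb hz))
      exact (h4.sub h5).differentiableWithinAt
    have hdc : DiffContOnCl ℂ (fun z => (D m).T j z - Bin D z) (ball y r) :=
      hTd.diffContOnCl_ball subset_rfl
    refine Complex.norm_le_of_forall_mem_frontier_norm_le isBounded_ball hdc ?_ (subset_closure hx)
    intro z hz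
    rw [frontier_ball y hr0.ne'] at hz
    exact hm1 j hj z hz

end V3S
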