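import Pool.Agent.helper54.V3.SpecE

set_option autoImplicit false

open Complex Metric Set Filter Topology MeasureTheory

namespace V3

/-- exponential equal to one. -/
theorem PR0_exp {t : ℂ} (ht : t ≠ 0) (x : ℂ) : exp (2 * Real.pi * I * x / t) = 1 ↔ x ∈ ZL t := by
  have hpi : (2 * (Real.pi : ℂ) * I) ≠ 0 := Complex.two_pi_I_ne_zero
  rw [Complex.exp_eq_one_iff]
  constructor
  · rintro ⟨n, hn⟩
    refine ⟨n, ?_⟩
    rw [div_eq_iff ht] at hn
    have h1 : 2 * (Real.pi : ℂ) * I * x = 2 * (Real.pi : ℂ) * I * (n * t) := by rw [hn]; ring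
    exact (mul_left_cancel₀ hpi h1).symm
  · rintro ⟨n, rfl⟩
    refine ⟨n, ?_⟩
    field_simp

/-- the Laurent expansion at zero. -/
theorem PR0_lau (L g₀ : ℂ) (hL : L ≠ 0) : ∃ h : ℂ → ℂ, AnalyticAt ℂ h 0 ∧ ∀ᶠ u in 𝓝[≠] (0 : ℂ),
    L ^ 2 * exp (L * u) / (exp (L * u) - 1) ^ 2 + g₀ * L / (exp (L * u) - 1) =
      1 / u ^ 2 + g₀ / u + h u := by
  have hf : AnalyticAt ℂ (fun u : ℂ => exp (L * u)) 0 := by fun_prop
  obtain ⟨E, hE, hE1⟩ : ∃ E : ℂ → ℂ, AnalyticAt ℂ E 0 ∧ E 0 = L ∧ ∀ u : ℂ, u ≠ 0 → exp (L * u) - 1 = u * E u := by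
    refine ⟨dslope (fun u : ℂ => exp (L * u)) 0, ?_, ?_, ?_⟩
    · have hd : Differentiable ℂ (fun u : ℂ => exp (L * u)) := by fun_prop
      have h2 : DifferentiableOn ℂ (dslope (fun u : ℂ => exp (L * u)) 0) univ := by
        rw [Complex.differentiableOn_dslope univ_mem]
        exact hd.differentiableOn
      exact h2.analyticAt univ_mem
    · rw [dslope_same]
      have : HasDerivAt (fun u : ℂ => exp (L * u)) (exp (L * 0) * (L * 1)) 0 :=
        HasDerivAt.cexp ((hasDerivAt_id (0 : ℂ)).const_mul L)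
      rw [this.deriv]; simp
    · intro u hu
      rw [dslope_of_ne _ hu, slope_def_field]
      simp only [mul_zero, Complex.exp_zero, sub_zero]
      field_simp
  obtain ⟨hE0, hE2⟩ := hE1
  have hEi : AnalyticAt ℂ (fun u => (E u)⁻¹) 0 := hE.inv (by rw [hE0]; exact hL)
  obtain ⟨k, hk, hk1⟩ : ∃ k : ℂ → ℂ, AnalyticAt ℂ k 0 ∧ ∀ u : ℂ, u ≠ 0 → (E u)⁻¹ = L⁻¹ + u * k u := by
    refine ⟨dslope (fun u => (E u)⁻¹) 0, ?_, ?_⟩
    · obtain ⟨s, hs, hs2⟩ := hEi.eventually_analyticAt.exists_mem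
      have hd : DifferentiableOn ℂ (fun u => (E u)⁻¹) s := fun z hz =>
        (hs2 z hz).differentiableAt.differentiableWithinAt
      have h2 : DifferentiableOn ℂ (dslope (fun u => (E u)⁻¹) 0) s := by
        rw [Complex.differentiableOn_dslope hs]
        exact hd
      exact h2.analyticAt hs
    · intro u hu
      rw [dslope_of_ne _ hu, slope_def_field, hE0]
      simp only [sub_zero]
      field_simp
      ring
  refine ⟨fun u => - L * deriv k u + g₀ * L * k u, ?_, ?_⟩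
  · exact ((analyticAt_const).mul hk.deriv).add (analyticAt_const.mul hk)
  · have hne : ∀ᶠ u in 𝓝 (0 : ℂ), E u ≠ 0 := hE.continuousAt.eventually_ne (by rw [hE0]; exact hL)
    have hka : ∀ᶠ u in 𝓝 (0 : ℂ), AnalyticAt ℂ k u := hk.eventually_analyticAt
    have h3 : ∀ᶠ u in 𝓝 (0 : ℂ), E u ≠ 0 ∧ AnalyticAt ℂ k u := hne.and hka
    have h4 := h3.eventually_nhds
    filter_upwards [h4.filter_mono nhdsWithin_le_nhds, self_mem_nhdsWithin] with u hu hu0
    have hu0' : u ≠ 0 := hu0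
    obtain ⟨hEu, hku⟩ := hu.self_of_nhds
    have key : ∀ z : ℂ, z ≠ 0 → E z ≠ 0 → (exp (L * z) - 1)⁻¹ = L⁻¹ * z⁻¹ + k z := by
      intro z hz hEz
      rw [hE2 z hz, mul_inv, hk1 z hz]
      field_simp
    have hy : exp (L * u) - 1 ≠ 0 := by
      rw [hE2 u hu0']; exact mul_ne_zero hu0' hEu
    have hev : (fun z => (exp (L * z) - 1)⁻¹) =ᶠ[𝓝 u] fun z => L⁻¹ * z⁻¹ + k z := by
      filter_upwards [hu, isOpen_ne.mem_nhds hu0'] with z hz hz0
      exact key z hz0 hz.1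
    have hd1 : HasDerivAt (fun z => (exp (L * z) - 1)⁻¹) (-(exp (L * u) * (L * 1)) / (exp (L * u) - 1) ^ 2) u := by
      have h5 : HasDerivAt (fun z : ℂ => exp (L * z) - 1) (exp (L * u) * (L * 1)) u :=
        (HasDerivAt.cexp ((hasDerivAt_id u).const_mul L)).sub_const 1
      exact h5.fun_inv hy
    have hd2 : HasDerivAt (fun z => L⁻¹ * z⁻¹ + k z) (L⁻¹ * (-(u ^ 2)⁻¹) + deriv k u) u :=
      ((hasDerivAt_inv hu0').const_mul L⁻¹).add hku.differentiableAt.hasDerivAt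
    have hd3 := hd1.unique (hd2.congr_of_eventuallyEq hev)
    have hkey := key u hu0' hEu
    have e1 : L ^ 2 * exp (L * u) / (exp (L * u) - 1) ^ 2 = - L * (-(exp (L * u) * (L * 1)) / (exp (L * u) - 1) ^ 2) := by
      ring
    have e2 : g₀ * L / (exp (L * u) - 1) = g₀ * L * (exp (L * u) - 1)⁻¹ := by rw [div_eq_mul_inv]
    rw [e1, e2, hd3, hkey]
    field_simp
    ring

/-- the bound of the two rational functions. -/
theorem PR0_bd (a b y : ℂ) (hy : ‖y‖ ≤ 1 / 2) :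
    ‖a * (y * (y ^ 2 + 4 * y + 1)) / (y - 1) ^ 4 + b * (y * (y + 1)) / (y - 1) ^ 3‖ ≤ (96 * ‖a‖ + 16 * ‖b‖) * ‖y‖ := by
  have h1 : 1 / 2 ≤ ‖y - 1‖ := by
    have := norm_sub_norm_le (1 : ℂ) y
    rw [norm_one] at this
    rw [norm_sub_rev]
    linarith
  have h0 : 0 ≤ ‖y‖ := norm_nonneg y
  have h2 : ‖y ^ 2 + 4 * y + 1‖ ≤ 6 := by
    calc ‖y ^ 2 + 4 * y + 1‖ ≤ ‖y ^ 2 + 4 * y‖ + ‖(1 : ℂ)‖ := norm_add_le _ _
      _ ≤ ‖y ^ 2‖ + ‖4 * y‖ + ‖(1 : ℂ)‖ := by gcongr; exact norm_add_le _ _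
      _ = ‖y‖ ^ 2 + 4 * ‖y‖ + 1 := by rw [norm_pow, norm_mul, norm_one]; norm_num
      _ ≤ 6 := by nlinarith
  have h3 : ‖y + 1‖ ≤ 2 := by
    calc ‖y + 1‖ ≤ ‖y‖ + ‖(1 : ℂ)‖ := norm_add_le _ _
      _ ≤ 2 := by rw [norm_one]; linarith
  have h4 : (1 / 16 : ℝ) ≤ ‖y - 1‖ ^ 4 := by
    calc (1 / 16 : ℝ) = (1 / 2) ^ 4 := by norm_num
      _ ≤ _ := by gcongr
  have h5 : (1 / 8 : ℝ) ≤ ‖y - 1‖ ^ 3 := by
    calc (1 / 8 : ℝ) = (1 / 2) ^ 3 := by norm_num
      _ ≤ _ := by gcongr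
  have h6 : ‖a * (y * (y ^ 2 + 4 * y + 1)) / (y - 1) ^ 4‖ ≤ 96 * ‖a‖ * ‖y‖ := by
    rw [norm_div, norm_mul, norm_mul, norm_pow]
    rw [div_le_iff₀ (by linarith)]
    calc ‖a‖ * (‖y‖ * ‖y ^ 2 + 4 * y + 1‖) ≤ ‖a‖ * (‖y‖ * 6) := by gcongr
      _ = 96 * ‖a‖ * ‖y‖ * (1 / 16) := by ring
      _ ≤ 96 * ‖a‖ * ‖y‖ * ‖y - 1‖ ^ 4 := by gcongr
  have h7 : ‖b * (y * (y + 1)) / (y - 1) ^ 3‖ ≤ 16 * ‖b‖ * ‖y‖ := by
    rw [norm_div, norm_mul, norm_mul, norm_pow]
    rw [div_le_iff₀ (by linarith)]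
    calc ‖b‖ * (‖y‖ * ‖y + 1‖) ≤ ‖b‖ * (‖y‖ * 2) := by gcongr
      _ = 16 * ‖b‖ * ‖y‖ * (1 / 8) := by ring
      _ ≤ 16 * ‖b‖ * ‖y‖ * ‖y - 1‖ ^ 3 := by gcongr
  calc _ ≤ ‖a * (y * (y ^ 2 + 4 * y + 1)) / (y - 1) ^ 4‖ + ‖b * (y * (y + 1)) / (y - 1) ^ 3‖ := norm_add_le _ _
    _ ≤ 96 * ‖a‖ * ‖y‖ + 16 * ‖b‖ * ‖y‖ := add_le_add h6 h7
    _ = _ := by ring

/-- exponential decay against `1/s`. -/
theorem PR0_dec (s : ℝ) (hs : 1 ≤ s) : Real.exp (-(2 * Real.pi * s)) ≤ 1 / s ∧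
    Real.exp (-(2 * Real.pi * s)) ≤ 1 / 2 := by
  have hpi := Real.pi_gt_three
  have h1 : s + 1 ≤ Real.exp s := Real.add_one_le_exp s
  have h2 : Real.exp (-(2 * Real.pi * s)) ≤ (Real.exp s)⁻¹ := by
    rw [← Real.exp_neg]
    apply Real.exp_le_exp.2
    nlinarith
  constructor
  · refine h2.trans ?_
    rw [one_div]
    exact inv_anti₀ (by linarith) (by linarith)
  · refine h2.trans ?_
    rw [one_div]
    exact inv_anti₀ (by norm_num) (by linarith)

/-- the modulus of `y`. -/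
theorem PR0_nrm (t x : ℂ) : ‖exp (2 * Real.pi * I * x / t)‖ = Real.exp (-(2 * Real.pi * (x / t).im)) := by
  rw [Complex.norm_exp]
  congr 1
  have : 2 * (Real.pi : ℂ) * I * x / t = ((2 * Real.pi : ℝ) : ℂ) * (I * (x / t)) := by
    push_cast; ring
  rw [this, Complex.re_ofReal_mul, Complex.I_mul_re]
  ring

theorem PR0 : PR0_stmt := by
  intro t g₀ ht
  set L : ℂ := 2 * Real.pi * I / t with hLdef
  have hL : L ≠ 0 := div_ne_zero Complex.two_pi_I_ne_zero ht
  have hLx : ∀ x : ℂ, 2 * Real.pi * I * x / t = L * x := fun x => by rw [hLdef]; ring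
  refine ⟨fun x => L ^ 2 * exp (2 * Real.pi * I * x / t) / (exp (2 * Real.pi * I * x / t) - 1) ^ 2 +
    g₀ * L / (exp (2 * Real.pi * I * x / t) - 1), fun x => rfl, ?_, ?_, ?_⟩
  · intro x hx
    have hy : exp (2 * Real.pi * I * x / t) - 1 ≠ 0 := by
      intro h
      exact hx ((PR0_exp ht x).1 (sub_eq_zero.1 h))
    have hd : DifferentiableAt ℂ (fun x : ℂ => exp (2 * Real.pi * I * x / t)) x := by
      simp only [hLx]; fun_prop
    exact (((hd.const_mul _).div ((hd.sub_const 1).pow 2) (pow_ne_zero 2 hy)).add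
      ((differentiableAt_const _).div (hd.sub_const 1) hy)).differentiableWithinAt
  · rintro p ⟨n, rfl⟩
    obtain ⟨h, hh, hh1⟩ := PR0_lau L g₀ hL
    refine ⟨fun x => h (x - n * t), ?_, ?_⟩
    · have h0 : AnalyticAt ℂ h (((n : ℂ) * t) - n * t) := by rwa [sub_self]
      exact AnalyticAt.fun_comp (g := h) (f := fun x : ℂ => x - n * t) h0 (by fun_prop)
    · have ht1 : Tendsto (fun x : ℂ => x - n * t) (𝓝[≠] ((n : ℂ) * t)) (𝓝[≠] 0) := by
        apply tendsto_nhdsWithin_of_tendsto_nhds_of_eventually_within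
        · have : Tendsto (fun x : ℂ => x - n * t) (𝓝 ((n : ℂ) * t)) (𝓝 ((n : ℂ) * t - n * t)) :=
            (continuous_id.sub continuous_const).tendsto _
          rw [sub_self] at this
          exact this.mono_left nhdsWithin_le_nhds
        · filter_upwards [self_mem_nhdsWithin] with x hx
          exact sub_ne_zero.2 hx
      filter_upwards [ht1.eventually hh1] with x hx
      have e : exp (2 * Real.pi * I * x / t) = exp (L * (x - n * t)) := by
        rw [hLx, mul_sub]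
        have : L * (n * t) = n * (2 * Real.pi * I) := by rw [hLdef]; field_simp
        rw [this]
        exact (Complex.exp_periodic.sub_int_mul_eq n).symm
      simp only [e]
      exact hx
  · refine ⟨96 * ‖L ^ 4‖ + 16 * ‖g₀ * L ^ 3‖, ?_⟩
    intro x hx
    have hnrm := PR0_nrm t x
    have hopen : IsOpen {z : ℂ | exp (2 * Real.pi * I * z / t) - 1 ≠ 0} := by
      apply isOpen_ne.preimage
      simp only [hLx]; fun_prop
    have hexp : ∀ z : ℂ, HasDerivAt (fun z : ℂ => exp (2 * Real.pi * I * z / t)) (exp (2 * Real.pi * I * z / t) * L) z := by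
      intro z
      simp only [hLx]
      have := HasDerivAt.cexp ((hasDerivAt_id z).const_mul L)
      simpa using this
    have hd1 : ∀ z : ℂ, exp (2 * Real.pi * I * z / t) - 1 ≠ 0 →
        HasDerivAt (fun x => L ^ 2 * exp (2 * Real.pi * I * x / t) / (exp (2 * Real.pi * I * x / t) - 1) ^ 2 +
          g₀ * L / (exp (2 * Real.pi * I * x / t) - 1))
          (-(L ^ 3 * (exp (2 * Real.pi * I * z / t) * (exp (2 * Real.pi * I * z / t) + 1))) /
            (exp (2 * Real.pi * I * z / t) - 1) ^ 3 -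
            g₀ * L ^ 2 * exp (2 * Real.pi * I * z / t) / (exp (2 * Real.pi * I * z / t) - 1) ^ 2) z := by
      intro z hz
      have h1 := hexp z
      have h2 := ((h1.const_mul (L ^ 2)).div ((h1.sub_const 1).pow 2) (pow_ne_zero 2 hz)).add
        ((hasDerivAt_const z (g₀ * L)).div (h1.sub_const 1) hz)
      refine h2.congr_deriv ?_
      simp only [Pi.pow_apply]
      set y := exp (2 * Real.pi * I * z / t)
      field_simp
      push_cast
      ring
    have hd2 : ∀ z : ℂ, exp (2 * Real.pi * I * z / t) - 1 ≠ 0 →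
        HasDerivAt (fun z => (-(L ^ 3 * (exp (2 * Real.pi * I * z / t) * (exp (2 * Real.pi * I * z / t) + 1))) /
            (exp (2 * Real.pi * I * z / t) - 1) ^ 3 -
            g₀ * L ^ 2 * exp (2 * Real.pi * I * z / t) / (exp (2 * Real.pi * I * z / t) - 1) ^ 2))
          (L ^ 4 * (exp (2 * Real.pi * I * z / t) * (exp (2 * Real.pi * I * z / t) ^ 2 +
            4 * exp (2 * Real.pi * I * z / t) + 1)) / (exp (2 * Real.pi * I * z / t) - 1) ^ 4 +
            g₀ * L ^ 3 * (exp (2 * Real.pi * I * z / t) * (exp (2 * Real.pi * I * z / t) + 1)) /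
            (exp (2 * Real.pi * I * z / t) - 1) ^ 3) z := by
      intro z hz
      have h1 := hexp z
      have h2 := (((h1.mul (h1.add_const 1)).const_mul (L ^ 3)).neg.div ((h1.sub_const 1).pow 3) (pow_ne_zero 3 hz)).sub
        ((h1.const_mul (g₀ * L ^ 2)).div ((h1.sub_const 1).pow 2) (pow_ne_zero 2 hz))
      refine h2.congr_deriv ?_
      simp only [Pi.pow_apply, Pi.mul_apply, Pi.neg_apply]
      set y := exp (2 * Real.pi * I * z / t)
      field_simp
      push_cast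
      ring
    have hy : exp (2 * Real.pi * I * x / t) - 1 ≠ 0 := by
      intro h
      have h1 : ‖exp (2 * Real.pi * I * x / t)‖ = 1 := by rw [sub_eq_zero.1 h]; simp
      rw [hnrm, Real.exp_eq_one_iff] at h1
      have h2 : (x / t).im = 0 := by
        have := Real.pi_pos
        nlinarith
      rw [h2] at hx
      norm_num at hx
    have hit : iteratedDeriv 2 (fun x => L ^ 2 * exp (2 * Real.pi * I * x / t) / (exp (2 * Real.pi * I * x / t) - 1) ^ 2 +
          g₀ * L / (exp (2 * Real.pi * I * x / t) - 1)) x = (L ^ 4 * (exp (2 * Real.pi * I * x / t) * (exp (2 * Real.pi * I * x / t) ^ 2 +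
            4 * exp (2 * Real.pi * I * x / t) + 1)) / (exp (2 * Real.pi * I * x / t) - 1) ^ 4 +
            g₀ * L ^ 3 * (exp (2 * Real.pi * I * x / t) * (exp (2 * Real.pi * I * x / t) + 1)) /
            (exp (2 * Real.pi * I * x / t) - 1) ^ 3) := by
      rw [iteratedDeriv_succ, iteratedDeriv_one]
      have hev : deriv (fun x => L ^ 2 * exp (2 * Real.pi * I * x / t) / (exp (2 * Real.pi * I * x / t) - 1) ^ 2 +
          g₀ * L / (exp (2 * Real.pi * I * x / t) - 1)) =ᶠ[𝓝 x] (fun z => (-(L ^ 3 * (exp (2 * Real.pi * I * z / t) * (exp (2 * Real.pi * I * z / t) + 1))) /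
            (exp (2 * Real.pi * I * z / t) - 1) ^ 3 -
            g₀ * L ^ 2 * exp (2 * Real.pi * I * z / t) / (exp (2 * Real.pi * I * z / t) - 1) ^ 2)) := by
        filter_upwards [hopen.mem_nhds hy] with z hz
        exact (hd1 z hz).deriv
      exact ((hd2 x hy).congr_of_eventuallyEq hev).deriv
    rw [hit]
    set y := exp (2 * Real.pi * I * x / t) with hydef
    set s := |(x / t).im| with hsdef
    obtain ⟨hs1, hs2⟩ := PR0_dec s hx
    have hs0 : 0 < s := by linarith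
    have hC : 0 ≤ 96 * ‖L ^ 4‖ + 16 * ‖g₀ * L ^ 3‖ := by positivity
    rcases le_or_gt 0 (x / t).im with hpos | hneg
    · have hs : s = (x / t).im := by rw [hsdef]; exact abs_of_nonneg hpos
      rw [← hs] at hnrm
      have h1 := PR0_bd (L ^ 4) (g₀ * L ^ 3) y (by rw [hnrm]; exact hs2)
      refine h1.trans ?_
      rw [div_eq_mul_one_div]
      refine mul_le_mul_of_nonneg_left ?_ hC
      rw [hnrm]; exact hs1
    · have hs : s = -(x / t).im := by rw [hsdef]; exact abs_of_neg hneg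
      have hy0 : y ≠ 0 := Complex.exp_ne_zero _
      have hinv : ‖y⁻¹‖ = Real.exp (-(2 * Real.pi * s)) := by
        rw [norm_inv, hnrm, ← Real.exp_neg, hs]
        congr 1; ring
      have h1 := PR0_bd (L ^ 4) (-(g₀ * L ^ 3)) y⁻¹ (by rw [hinv]; exact hs2)
      have h2 : L ^ 4 * (y * (y ^ 2 + 4 * y + 1)) / (y - 1) ^ 4 + g₀ * L ^ 3 * (y * (y + 1)) / (y - 1) ^ 3 =
          L ^ 4 * (y⁻¹ * (y⁻¹ ^ 2 + 4 * y⁻¹ + 1)) / (y⁻¹ - 1) ^ 4 + -(g₀ * L ^ 3) * (y⁻¹ * (y⁻¹ + 1)) / (y⁻¹ - 1) ^ 3 := by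
        have e1 : y⁻¹ - 1 = -(y - 1) / y := by field_simp; ring
        rw [e1]
        field_simp
        ring
      rw [h2]
      refine h1.trans ?_
      rw [div_eq_mul_one_div, norm_neg]
      refine mul_le_mul_of_nonneg_left ?_ hC
      rw [hinv]; exact hs1

end V3
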