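import Pool.Agent.helper36.V3.SpecW

set_option autoImplicit false

open Complex Metric Set Filter Topology MeasureTheory MPS Pool.Agent.helper98.ILF Pool.Agent.helper16.Multibrot

noncomputable section

namespace V3W

theorem THQ (hTHN : THN_stmt) (hLGN : LGN_stmt) (hTHC : PPS.THC_stmt) : THQ_stmt := by
  intro n a K hn ha hK
  obtain ⟨ε₁, h1, H1⟩ := hTHN n a K hn ha hK
  set e : ℝ := min ε₁ 1 with he
  have he0 : 0 < e := lt_min h1 one_pos
  have he1 : e ≤ ε₁ := min_le_left _ _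
  have he2 : e ≤ 1 := min_le_right _ _
  obtain ⟨ε₃, h3, H3⟩ := hTHC n a (e / 2) hn ha (by positivity)
  refine ⟨min (e / 4) (ε₃ / (2 * (1 + K))), lt_min (by positivity) (by positivity), ?_⟩
  intro k hk f b g hBd hcyc hρ hlog hex
  have hl1 : Real.log ‖PPS.rho f b‖ ≤ e / 4 := hlog.trans (min_le_left _ _)
  have hl2 : Real.log ‖PPS.rho f b‖ ≤ ε₃ / (2 * (1 + K)) := hlog.trans (min_le_right _ _)
  obtain ⟨-, hL2, hL3⟩ := hLGN
  obtain ⟨hpos, hle⟩ := hL2 _ hρ
  by_cases hc : ‖PPS.rho f b - 1‖ ≤ e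
  · have h4 := H1 k f b g hBd hcyc hρ (hc.trans he1) hex
    exact (mul_le_mul_of_nonneg_left hle hK.le).trans h4
  · rw [not_le] at hc
    have h5 := hL3 _ hρ (by linarith)
    have h6 := H3 k f b g hBd hcyc hρ (by linarith) hex
    rw [le_div_iff₀ (by positivity)] at hl2
    nlinarith

end V3W
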